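import Pool.Agent.W544.KF.Defs2

set_option autoImplicit false

open CategoryTheory MonoidalCategory

namespace Pool.Agent.W771.KF

open Pool.Agent.W544.KF

universe v u

section

variable {D : Type u} [Category.{v} D] [MonoidalCategory D] [SymmetricCategory D] (M : D)

theorem sw_sq : ∀ n, sw M n ≫ sw M n = 𝟙 _
  | 0 => SymmetricCategory.symmetry M M
  | n + 1 => by
    show ((α_ M M (pw M n)).inv ≫ (β_ M M).hom ▷ pw M n ≫ (α_ M M (pw M n)).hom) ≫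
      ((α_ M M (pw M n)).inv ≫ (β_ M M).hom ▷ pw M n ≫ (α_ M M (pw M n)).hom) = 𝟙 _
    have h : (β_ M M).hom ▷ pw M n ≫ (β_ M M).hom ▷ pw M n = 𝟙 _ := by
      rw [← comp_whiskerRight, SymmetricCategory.symmetry, id_whiskerRight]
    simp only [Category.assoc, Iso.hom_inv_id_assoc]
    rw [reassoc_of% h, Iso.inv_hom_id]

theorem sw_far (n : ℕ) (x : pw M n ⟶ pw M n) :
    sw M (n + 1) ≫ M ◁ (M ◁ x) = M ◁ (M ◁ x) ≫ sw M (n + 1) := by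
  show ((α_ M M (pw M n)).inv ≫ (β_ M M).hom ▷ pw M n ≫ (α_ M M (pw M n)).hom) ≫ M ◁ (M ◁ x) =
    M ◁ (M ◁ x) ≫ ((α_ M M (pw M n)).inv ≫ (β_ M M).hom ▷ pw M n ≫ (α_ M M (pw M n)).hom)
  simp only [Category.assoc]
  rw [← associator_naturality_right, ← whisker_exchange_assoc, associator_inv_naturality_right_assoc]

theorem braid_whisker (P : D) :
    (α_ M M (M ⊗ P)).inv ≫ (β_ M M).hom ▷ (M ⊗ P) ≫ (α_ M M (M ⊗ P)).hom =
      (M ◁ (α_ M M P).inv ≫ (α_ M (M ⊗ M) P).inv) ≫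
        ((α_ M M M).inv ≫ (β_ M M).hom ▷ M ≫ (α_ M M M).hom) ▷ P ≫
        (α_ M (M ⊗ M) P).hom ≫ M ◁ (α_ M M P).hom := by
  monoidal

theorem whisker_whisker (P : D) :
    M ◁ ((α_ M M P).inv ≫ (β_ M M).hom ▷ P ≫ (α_ M M P).hom) =
      (M ◁ (α_ M M P).inv ≫ (α_ M (M ⊗ M) P).inv) ≫ (M ◁ (β_ M M).hom) ▷ P ≫
        (α_ M (M ⊗ M) P).hom ≫ M ◁ (α_ M M P).hom := by
  monoidal

theorem conj_id (P : D) :
    ((α_ M (M ⊗ M) P).hom ≫ M ◁ (α_ M M P).hom) ≫ (M ◁ (α_ M M P).inv ≫ (α_ M (M ⊗ M) P).inv) =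
      𝟙 _ := by
  monoidal

theorem yb : ((α_ M M M).inv ≫ (β_ M M).hom ▷ M ≫ (α_ M M M).hom) ≫ M ◁ (β_ M M).hom ≫
      ((α_ M M M).inv ≫ (β_ M M).hom ▷ M ≫ (α_ M M M).hom) =
    M ◁ (β_ M M).hom ≫ ((α_ M M M).inv ≫ (β_ M M).hom ▷ M ≫ (α_ M M M).hom) ≫
      M ◁ (β_ M M).hom := by
  have h := BraidedCategory.yang_baxter M M M
  simpa only [Category.assoc] using h

theorem sw_braid : ∀ n, sw M (n + 1) ≫ M ◁ sw M n ≫ sw M (n + 1) =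
    M ◁ sw M n ≫ sw M (n + 1) ≫ M ◁ sw M n
  | 0 => yb M
  | n + 1 => by
    show ((α_ M M (M ⊗ pw M n)).inv ≫ (β_ M M).hom ▷ (M ⊗ pw M n) ≫
        (α_ M M (M ⊗ pw M n)).hom) ≫
      (M ◁ ((α_ M M (pw M n)).inv ≫ (β_ M M).hom ▷ pw M n ≫ (α_ M M (pw M n)).hom)) ≫
      ((α_ M M (M ⊗ pw M n)).inv ≫ (β_ M M).hom ▷ (M ⊗ pw M n) ≫
        (α_ M M (M ⊗ pw M n)).hom) =
      (M ◁ ((α_ M M (pw M n)).inv ≫ (β_ M M).hom ▷ pw M n ≫ (α_ M M (pw M n)).hom)) ≫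
      ((α_ M M (M ⊗ pw M n)).inv ≫ (β_ M M).hom ▷ (M ⊗ pw M n) ≫
        (α_ M M (M ⊗ pw M n)).hom) ≫
      (M ◁ ((α_ M M (pw M n)).inv ≫ (β_ M M).hom ▷ pw M n ≫ (α_ M M (pw M n)).hom))
    rw [braid_whisker, whisker_whisker]
    generalize pw M n = P
    have hy := yb M
    set A := (α_ M M M).inv ≫ (β_ M M).hom ▷ M ≫ (α_ M M M).hom
    set B := M ◁ (β_ M M).hom
    have hc := conj_id M P
    set c := M ◁ (α_ M M P).inv ≫ (α_ M (M ⊗ M) P).inv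
    set c' := (α_ M (M ⊗ M) P).hom ≫ M ◁ (α_ M M P).hom
    have hy' : A ▷ P ≫ B ▷ P ≫ A ▷ P = B ▷ P ≫ A ▷ P ≫ B ▷ P := by
      rw [← comp_whiskerRight, ← comp_whiskerRight, ← comp_whiskerRight, ← comp_whiskerRight, hy]
    simp only [Category.assoc]
    simp only [reassoc_of% hc]
    rw [reassoc_of% hy']

theorem sw_pm (f : M ⟶ M) : ∀ n, pm f (n + 1) ≫ sw M n = sw M n ≫ pm f (n + 1)
  | 0 => BraidedCategory.braiding_naturality f f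
  | n + 1 => by
    show (f ⊗ₘ (f ⊗ₘ pm f n)) ≫
      ((α_ M M (pw M n)).inv ≫ (β_ M M).hom ▷ pw M n ≫ (α_ M M (pw M n)).hom) =
      ((α_ M M (pw M n)).inv ≫ (β_ M M).hom ▷ pw M n ≫ (α_ M M (pw M n)).hom) ≫
        (f ⊗ₘ (f ⊗ₘ pm f n))
    have h : ((f ⊗ₘ f) ⊗ₘ pm f n) ≫ (β_ M M).hom ▷ pw M n =
        (β_ M M).hom ▷ pw M n ≫ ((f ⊗ₘ f) ⊗ₘ pm f n) := by
      rw [← tensorHom_id, tensorHom_comp_tensorHom, tensorHom_comp_tensorHom,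
        BraidedCategory.braiding_naturality, Category.comp_id, Category.id_comp]
    simp only [Category.assoc]
    rw [← associator_naturality, associator_inv_naturality_assoc, reassoc_of% h]

end

theorem sw_all : S_sw.{v, u} := by
  intro D _ _ _ M
  exact ⟨sw_sq M, sw_far M, sw_braid M, fun n f => sw_pm M f n⟩

end Pool.Agent.W771.KF
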